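import Pool.Agent.helper62.VN.SpecG
import Pool.Agent.helper71.VNE.GLP

/-!
# Row vne:GTL (MP_07c750_an): Taylor expansion and second differences of `ρ` and `-κ/2`

`R`, `N2` of GQC are `CB`; Taylor expansion of a `CB` function along `dg b c`, quotient by GO2; second differences of `R`, `N2` by PSD and the Lipschitz
bounds (GLP), of the quotient by algebra.
-/

set_option autoImplicit false

open scoped MatrixGroups ContDiff Topology UpperHalfPlane
open UpperHalfPlane MeasureTheory Filter Set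

namespace Pool.Agent.VNE

open Pool.Agent.RS Pool.Agent.VQE
open Pool.Agent.VQ (Dyn rho kap n1 n2 hess Ug TF)
open Pool.Agent.VN (PotN OKN Kg)

theorem GTL_bc (b c : ℝ) (hb : |b| ≤ 1 / 25) (hc : |c| ≤ 1 / 25) : |b * c| ≤ 1 / 2 ∧ |b * c| ≤ |b| := by
  have h1 : |b * c| = |b| * |c| := abs_mul b c
  have h2 := abs_nonneg b
  have h3 := abs_nonneg c
  rw [h1]
  constructor <;> nlinarith

theorem GTL_sqd (x y : ℝ) (hx : |x| ≤ 1 / 2) (hy : |y| ≤ 1 / 2) : |√(1 + x) - √(1 + y)| ≤ |x - y| := by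
  have hx' := abs_le.1 hx
  have hy' := abs_le.1 hy
  have h1 : 0 ≤ 1 + x := by linarith [hx'.1]
  have h2 : 0 ≤ 1 + y := by linarith [hy'.1]
  have e1 := Real.mul_self_sqrt h1
  have e2 := Real.mul_self_sqrt h2
  have l1 : 1 / 2 ≤ √(1 + x) := Real.le_sqrt_of_sq_le (by norm_num; linarith [hx'.1])
  have l2 : 1 / 2 ≤ √(1 + y) := Real.le_sqrt_of_sq_le (by norm_num; linarith [hy'.1])
  have h3 : x - y = (√(1 + x) - √(1 + y)) * (√(1 + x) + √(1 + y)) := by nlinarith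
  rw [h3, abs_mul]
  have h4 : 1 ≤ |√(1 + x) + √(1 + y)| := by
    rw [abs_of_nonneg (by linarith)]
    linarith
  have h5 := abs_nonneg (√(1 + x) - √(1 + y))
  nlinarith

theorem GTL_ent (b c : ℝ) (hb : |b| ≤ 1 / 25) (hc : |c| ≤ 1 / 25) :
    (dg b c).1 = !![√(1 + b * c), b; c, √(1 + b * c)] := by
  have h1 := abs_le.1 (GTL_bc b c hb hc).1
  have h2 : 0 ≤ 1 + b * c := by linarith [h1.1]
  rw [dg, dif_pos h2]

theorem GTL_nmdg (b c : ℝ) (hb : |b| ≤ 1 / 25) (hc : |c| ≤ 1 / 25) : nm (dg b c) ≤ |b| + |c| := by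
  have h1 := GTL_ent b c hb hc
  have h2 := GTL_sqd (b * c) 0 (GTL_bc b c hb hc).1 (by norm_num)
  rw [add_zero, Real.sqrt_one, sub_zero] at h2
  have h3 := (GTL_bc b c hb hc).2
  have h4 := abs_nonneg b
  have h5 := abs_nonneg c
  unfold nm
  rw [h1]
  show max (max |√(1 + b * c) - 1| |b|) (max |c| |√(1 + b * c) - 1|) ≤ |b| + |c|
  refine max_le (max_le ?_ ?_) (max_le ?_ ?_) <;> linarith

theorem GTL_dg0 : dg 0 0 = 1 := by
  have h1 := GTL_ent 0 0 (by norm_num) (by norm_num)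
  apply Subtype.ext
  rw [h1]
  ext i j
  fin_cases i <;> fin_cases j <;> simp

/-- Taylor expansion of a `CB` function along `dg` -/
theorem GTL_tl (G : (Fin 2 → Fin 2 → ℝ) → ℝ) (K : ℝ) (hG : CB (Metric.closedBall one2 (1 / 10)) K G) :
    TL (2 * K) (1 / 25) (fun b c => G (mt (dg b c))) (G one2) (fderiv ℝ G one2 !![0, 1; 0, 0]) (fderiv ℝ G one2 !![0, 0; 1, 0]) := by
  have hb1 : one2 ∈ Metric.closedBall one2 (1 / 10) := Metric.mem_closedBall_self (by norm_num)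
  have hK : 0 ≤ K := (norm_nonneg _).trans (hG.b0 one2 hb1)
  have hop : ∀ v : Fin 2 → Fin 2 → ℝ, (∀ i j, |v i j| ≤ 1) → |fderiv ℝ G one2 v| ≤ K := fun v hv => GLP_op _ v K (hG.b1 _ hb1) hv
  refine ⟨?_, ⟨?_, ?_, ?_⟩, ?_⟩
  · show G (mt (dg 0 0)) = G one2
    rw [GTL_dg0, GLP_mt1]
  · have := hG.b0 one2 hb1
    rw [Real.norm_eq_abs] at this
    linarith
  · refine (hop _ fun i j => ?_).trans (by linarith)
    fin_cases i <;> fin_cases j <;> simp
  · refine (hop _ fun i j => ?_).trans (by linarith)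
    fin_cases i <;> fin_cases j <;> simp
  · intro b c b' c' hb hc hb' hc'
    have p1 := abs_nonneg b
    have p2 := abs_nonneg c
    have p3 := abs_nonneg b'
    have p4 := abs_nonneg c'
    have p5 := abs_nonneg (b - b')
    have p6 := abs_nonneg (c - c')
    have hn := GTL_nmdg b c hb hc
    have hn' := GTL_nmdg b' c' hb' hc'
    have hsq := GTL_sqd (b * c) (b' * c') (GTL_bc b c hb hc).1 (GTL_bc b' c' hb' hc').1
    have hbc : |b * c - b' * c'| ≤ (|b| + |c| + |b'| + |c'|) * (|b - b'| + |c - c'|) := by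
      have h1 : b * c - b' * c' = b * (c - c') + (b - b') * c' := by ring
      rw [h1]
      refine (abs_add_le _ _).trans ?_
      rw [abs_mul, abs_mul]
      nlinarith [mul_nonneg p1 p5, mul_nonneg p2 p5, mul_nonneg p3 p5, mul_nonneg p2 p6, mul_nonneg p3 p6, mul_nonneg p4 p6]
    have hda := hsq.trans hbc
    set S : ℝ := |b| + |c| + |b'| + |c'| with hS
    set Δ : ℝ := |b - b'| + |c - c'| with hΔ
    have hS0 : 0 ≤ S := by linarith
    have hS1 : S ≤ 1 := by linarith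
    have hΔ0 : 0 ≤ Δ := by linarith
    have hM : mt (dg b c) ∈ Metric.closedBall one2 (1 / 10) ∩ Metric.closedBall one2 S := by
      constructor
      · exact GLP_ball _ (by linarith)
      · rw [Metric.mem_closedBall, dist_eq_norm]
        exact (GLP_mt _).trans (by linarith)
    have hM' : mt (dg b' c') ∈ Metric.closedBall one2 (1 / 10) ∩ Metric.closedBall one2 S := by
      constructor
      · exact GLP_ball _ (by linarith)
      · rw [Metric.mem_closedBall, dist_eq_norm]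
        exact (GLP_mt _).trans (by linarith)
    have hbd : ∀ x ∈ Metric.closedBall one2 (1 / 10) ∩ Metric.closedBall one2 S, ‖fderiv ℝ G x - fderiv ℝ G one2‖ ≤ K * S := by
      intro x hx
      have h1 := hG.b2 x hx.1 one2 hb1
      have h2 : ‖x - one2‖ ≤ S := by
        have := hx.2
        rwa [Metric.mem_closedBall, dist_eq_norm] at this
      exact h1.trans (mul_le_mul_of_nonneg_left h2 hK)
    have hmv := ((convex_closedBall one2 (1 / 10)).inter (convex_closedBall one2 S)).norm_image_sub_le_of_norm_fderiv_le' (𝕜 := ℝ)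
      (fun x hx => hG.diff x hx.1) hbd hM' hM
    have hent := GTL_ent b c hb hc
    have hent' := GTL_ent b' c' hb' hc'
    obtain ⟨v1, hv1⟩ : ∃ v : Fin 2 → Fin 2 → ℝ, v = !![0, 1; 0, 0] := ⟨_, rfl⟩
    obtain ⟨v2, hv2⟩ : ∃ v : Fin 2 → Fin 2 → ℝ, v = !![0, 0; 1, 0] := ⟨_, rfl⟩
    have hdec : mt (dg b c) - mt (dg b' c') = (b - b') • v1 + (c - c') • v2 + (√(1 + b * c) - √(1 + b' * c')) • one2 := by
      funext i j
      show (dg b c).1 i j - (dg b' c').1 i j = (b - b') * v1 i j + (c - c') * v2 i j + (√(1 + b * c) - √(1 + b' * c')) * one2 i j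
      rw [hent, hent', hv1, hv2]
      fin_cases i <;> fin_cases j <;> simp [one2]
    have hnn : ‖mt (dg b c) - mt (dg b' c')‖ ≤ Δ := by
      refine GLP_norm _ _ hΔ0 fun i j => ?_
      show |(dg b c).1 i j - (dg b' c').1 i j| ≤ Δ
      rw [hent, hent']
      have hda1 : |√(1 + b * c) - √(1 + b' * c')| ≤ Δ := hda.trans (by nlinarith)
      fin_cases i <;> fin_cases j
      · exact hda1
      · show |b - b'| ≤ Δ
        linarith
      · show |c - c'| ≤ Δ
        linarith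
      · exact hda1
    rw [hdec, map_add, map_add, map_smul, map_smul, map_smul, ← hdec, Real.norm_eq_abs, smul_eq_mul, smul_eq_mul, smul_eq_mul] at hmv
    have h1 : K * S * ‖mt (dg b c) - mt (dg b' c')‖ ≤ K * S * Δ := mul_le_mul_of_nonneg_left hnn (mul_nonneg hK hS0)
    have h2 : |(√(1 + b * c) - √(1 + b' * c')) * fderiv ℝ G one2 one2| ≤ K * S * Δ := by
      rw [abs_mul]
      have h3 : |fderiv ℝ G one2 one2| ≤ K := hop _ fun i j => by
        fin_cases i <;> fin_cases j <;> simp [one2]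
      calc _ ≤ (S * Δ) * K := mul_le_mul hda h3 (abs_nonneg _) (mul_nonneg hS0 hΔ0)
        _ = K * S * Δ := by ring
    have h3 := hmv.trans h1
    rw [abs_le] at h3 h2 ⊢
    rw [← hv1, ← hv2]
    show -(2 * K * S * Δ) ≤ G (mt (dg b c)) - G (mt (dg b' c')) - fderiv ℝ G one2 v1 * (b - b') - fderiv ℝ G one2 v2 * (c - c') ∧
      G (mt (dg b c)) - G (mt (dg b' c')) - fderiv ℝ G one2 v1 * (b - b') - fderiv ℝ G one2 v2 * (c - c') ≤ 2 * K * S * Δ
    constructor <;> linarith [h3.1, h3.2, h2.1, h2.2]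

theorem GTL_mono (A A' r r' : ℝ) (φ : ℝ → ℝ → ℝ) (φ0 α β : ℝ) (h : TL A r φ φ0 α β) (hA : A ≤ A') (hr : r' ≤ r) : TL A' r' φ φ0 α β := by
  refine ⟨h.v0, ⟨h.bd.1.trans hA, h.bd.2.1.trans hA, h.bd.2.2.trans hA⟩, fun b c b' c' hb hc hb' hc' => ?_⟩
  refine (h.tl b c b' c' (hb.trans hr) (hc.trans hr) (hb'.trans hr) (hc'.trans hr)).trans ?_
  have p1 := abs_nonneg b
  have p2 := abs_nonneg c
  have p3 := abs_nonneg b'
  have p4 := abs_nonneg c'
  have p5 := abs_nonneg (b - b')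
  have p6 := abs_nonneg (c - c')
  exact mul_le_mul_of_nonneg_right (mul_le_mul_of_nonneg_right hA (by linarith)) (by linarith)

theorem GTL_cg (A r : ℝ) (φ ψ : ℝ → ℝ → ℝ) (φ0 α β : ℝ) (h : TL A r φ φ0 α β) (hr : 0 ≤ r) (he : ∀ b c, |b| ≤ r → |c| ≤ r → ψ b c = φ b c) :
    TL A r ψ φ0 α β := by
  refine ⟨?_, h.bd, fun b c b' c' hb hc hb' hc' => ?_⟩
  · rw [he 0 0 (by rwa [abs_zero]) (by rwa [abs_zero])]
    exact h.v0
  · rw [he b c hb hc, he b' c' hb' hc']
    exact h.tl b c b' c' hb hc hb' hc'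

theorem GTL_sc (A r x : ℝ) (φ : ℝ → ℝ → ℝ) (φ0 α β : ℝ) (h : TL A r φ φ0 α β) (hx : |x| ≤ 1) : TL A r (fun b c => x * φ b c) (x * φ0) (x * α) (x * β) := by
  have hl : ∀ y : ℝ, |x * y| ≤ |y| := fun y => by
    rw [abs_mul]
    exact mul_le_of_le_one_left (abs_nonneg _) hx
  refine ⟨?_, ⟨(hl _).trans h.bd.1, (hl _).trans h.bd.2.1, (hl _).trans h.bd.2.2⟩, fun b c b' c' hb hc hb' hc' => ?_⟩
  · show x * φ 0 0 = x * φ0
    rw [h.v0]
  · have h1 := h.tl b c b' c' hb hc hb' hc'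
    have h2 : x * φ b c - x * φ b' c' - x * α * (b - b') - x * β * (c - c') = x * (φ b c - φ b' c' - α * (b - b') - β * (c - c')) := by ring
    show |x * φ b c - x * φ b' c' - x * α * (b - b') - x * β * (c - c')| ≤ _
    rw [h2]
    exact (hl _).trans h1

/-- second differences of a quotient -/
theorem GTL_quo (L d e u00 u10 u01 u11 w00 w10 w01 w11 : ℝ) (hL : 1 ≤ L) (hd : 0 ≤ d) (hd1 : d ≤ 1) (he : 0 ≤ e)
    (l00 : 1 / L ≤ w00) (l10 : 1 / L ≤ w10) (l01 : 1 / L ≤ w01) (l11 : 1 / L ≤ w11) (b00 : |u00| ≤ L) (b10 : |u10| ≤ L)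
    (du : |u01 - u00| ≤ L * d) (eu : |u10 - u00| ≤ L * e) (dw : |w01 - w00| ≤ L * d) (ew : |w10 - w00| ≤ L * e)
    (su : |u11 - u10 - u01 + u00| ≤ L * d * e) (sw : |w11 - w10 - w01 + w00| ≤ L * d * e) :
    |u11 / w11 - u10 / w10 - u01 / w01 + u00 / w00| ≤ 8 * L ^ 6 * d * e := by
  have hL0 : 0 < L := by linarith
  have hiL : 0 < 1 / L := by positivity
  have hinv : ∀ w : ℝ, 1 / L ≤ w → |1 / w| ≤ L := by
    intro w hw
    have hw0 : 0 < w := by linarith
    rw [abs_of_pos (by positivity), div_le_iff₀ hw0]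
    rw [div_le_iff₀ hL0] at hw
    linarith
  have hmul : ∀ x y X Y : ℝ, |x| ≤ X → |y| ≤ Y → |x * y| ≤ X * Y := by
    intro x y X Y hx hy
    rw [abs_mul]
    exact mul_le_mul hx hy (abs_nonneg _) ((abs_nonneg _).trans hx)
  have w00' : w00 ≠ 0 := by
    have : 0 < w00 := by linarith
    exact this.ne'
  have w10' : w10 ≠ 0 := by
    have : 0 < w10 := by linarith
    exact this.ne'
  have w01' : w01 ≠ 0 := by
    have : 0 < w01 := by linarith
    exact this.ne'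
  have w11' : w11 ≠ 0 := by
    have : 0 < w11 := by linarith
    exact this.ne'
  have q00 : |u00 / w00| ≤ L ^ 2 := by
    have h1 := hmul _ _ _ _ b00 (hinv _ l00)
    have h2 : u00 / w00 = u00 * (1 / w00) := by ring
    rw [h2, pow_two]
    exact h1
  have q10 : |u10 / w10| ≤ L ^ 2 := by
    have h1 := hmul _ _ _ _ b10 (hinv _ l10)
    have h2 : u10 / w10 = u10 * (1 / w10) := by ring
    rw [h2, pow_two]
    exact h1
  have hL2 : L ^ 2 * 1 ≤ L ^ 2 * L ^ 2 := mul_le_mul_of_nonneg_left (one_le_pow₀ hL) (by positivity)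
  have hq : ∀ x u w : ℝ, 0 ≤ x → 1 / L ≤ w → |u - u00| ≤ L * x → |w - w00| ≤ L * x → |u / w - u00 / w00| ≤ 2 * L ^ 4 * x := by
    intro x u w hx hw hu hww
    have hw' : w ≠ 0 := by
      have : 0 < w := by linarith
      exact this.ne'
    have h1 : u / w - u00 / w00 = ((u - u00) - u00 / w00 * (w - w00)) * (1 / w) := by
      field_simp
      ring
    rw [h1]
    have h2 : |(u - u00) - u00 / w00 * (w - w00)| ≤ L * x + L ^ 2 * (L * x) := (abs_sub _ _).trans (add_le_add hu (hmul _ _ _ _ q00 hww))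
    refine (hmul _ _ _ _ h2 (hinv w hw)).trans ?_
    have h3 : (L * x + L ^ 2 * (L * x)) * L = (L ^ 2 + L ^ 2 * L ^ 2) * x := by ring
    rw [h3]
    refine mul_le_mul_of_nonneg_right ?_ hx
    have h4 : L ^ 2 * L ^ 2 = L ^ 4 := by ring
    linarith
  have dq := hq d u01 w01 hd l01 du dw
  have eq := hq e u10 w10 he l10 eu ew
  have hde : 0 ≤ d * e := mul_nonneg hd he
  have dwe : |w11 - w01| ≤ 2 * L * e := by
    have h1 : w11 - w01 = (w11 - w10 - w01 + w00) + (w10 - w00) := by ring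
    rw [h1]
    refine (abs_add_le _ _).trans ?_
    have h2 : L * d * e ≤ L * e := by nlinarith [mul_nonneg hL0.le he]
    linarith
  have hid : u11 / w11 - u10 / w10 - u01 / w01 + u00 / w00 = ((u11 - u10 - u01 + u00) - (u01 / w01 - u00 / w00) * (w11 - w01) - u10 / w10 * (w11 - w10 - w01 + w00) -
      (u10 / w10 - u00 / w00) * (w01 - w00)) * (1 / w11) := by
    field_simp
    ring
  rw [hid]
  have t1 := hmul _ _ _ _ dq dwe
  have t2 := hmul _ _ _ _ q10 sw
  have t3 := hmul _ _ _ _ eq dw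
  have t4 : |(u11 - u10 - u01 + u00) - (u01 / w01 - u00 / w00) * (w11 - w01) - u10 / w10 * (w11 - w10 - w01 + w00) - (u10 / w10 - u00 / w00) * (w01 - w00)| ≤
      L * d * e + 2 * L ^ 4 * d * (2 * L * e) + L ^ 2 * (L * d * e) + 2 * L ^ 4 * e * (L * d) :=
    (abs_sub _ _).trans (add_le_add ((abs_sub _ _).trans (add_le_add ((abs_sub _ _).trans (add_le_add su t1)) t2)) t3)
  refine (hmul _ _ _ _ t4 (hinv _ l11)).trans ?_
  have h5 : (L * d * e + 2 * L ^ 4 * d * (2 * L * e) + L ^ 2 * (L * d * e) + 2 * L ^ 4 * e * (L * d)) * L = (L ^ 2 + L ^ 4 + 6 * L ^ 6) * (d * e) := by ring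
  have h6 : L ^ 2 ≤ L ^ 6 := pow_le_pow_right₀ hL (by norm_num)
  have h7 : L ^ 4 ≤ L ^ 6 := pow_le_pow_right₀ hL (by norm_num)
  rw [h5]
  calc (L ^ 2 + L ^ 4 + 6 * L ^ 6) * (d * e) ≤ (8 * L ^ 6) * (d * e) := mul_le_mul_of_nonneg_right (by linarith) hde
    _ = 8 * L ^ 6 * d * e := by ring

theorem GTL_proof (h1 : VQE.NMB_stmt) (h2 : GQC_stmt) (h3 : GDV_stmt) (h5 : VQE.PSD_stmt) (h7 : GLP_stmt) (h8 : GO2_stmt) : GTL_stmt := by
  intro k hk
  obtain ⟨K0, hK0, hQ⟩ := h2 k hk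
  obtain ⟨K1, hK1, hLP⟩ := h7 k hk
  obtain ⟨A1, r1, hA1, hr1, hr1', hG1, -⟩ := h8 (2 * K0 + K1) (1 / 25) (by linarith) (by norm_num)
  obtain ⟨A2, r2, hA2, hr2, hr2', hG2, -⟩ := h8 (2 * K0 + K1 + A1) r1 (by linarith) hr1
  set L : ℝ := 10 * K0 + 50 * K1 with hLdef
  have hL1 : 1 ≤ L := by linarith
  have hL6 : 0 ≤ 8 * L ^ 6 := by positivity
  have hir : 0 < 1 / r2 := by positivity
  set K : ℝ := 2 * K0 + K1 + A1 + A2 + 1 / r2 + 25 + 8 * L ^ 6 + L with hKdef
  have hKpos : 0 < K := by linarith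
  have hKr : 1 / K ≤ r2 := by
    rw [div_le_iff₀ hKpos]
    have h9 : r2 * (1 / r2) ≤ r2 * K := mul_le_mul_of_nonneg_left (by linarith) hr2.le
    have h10 : r2 * (1 / r2) = 1 := by field_simp
    linarith
  have hK25 : 1 / K ≤ 1 / 25 := one_div_le_one_div_of_le (by norm_num) (by linarith)
  refine ⟨K, by linarith, fun Γ B U hU g => ?_⟩
  have hb1 : one2 ∈ Metric.closedBall one2 (1 / 10) := Metric.mem_closedBall_self (by norm_num)
  obtain ⟨R, N1, N2, hR, hN1, hN2, hD⟩ := hQ Γ B U hU g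
  have hn1 : nm 1 ≤ 1 / 10 := by rw [GLP_nm1]; norm_num
  obtain ⟨a1, a2, a3, a4⟩ := hD 1 hn1
  rw [mul_one] at a1 a2 a3 a4
  rw [GLP_mt1] at a2 a3 a4
  have hU0 : 0 < U (g • I) := by
    have := hU.lo (g • I)
    linarith
  have hd := h3 U g R N1 N2 hU.smooth hU0 (hR.diff _ hb1) (hN1.diff _ hb1) (hN2.diff _ hb1) fun D hD' => (hD D hD').2
  have m1 : (!![(0 : ℝ) / 2, 1; 0, -(0 / 2)] : Matrix (Fin 2) (Fin 2) ℝ) = !![0, 1; 0, 0] := by simp
  have m2 : (!![(0 : ℝ) / 2, 0; 1, -(0 / 2)] : Matrix (Fin 2) (Fin 2) ℝ) = !![0, 0; 1, 0] := by simp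
  have d1 := hd 0 1 0
  have d2 := hd 0 0 1
  rw [m1] at d1
  rw [m2] at d2
  -- the expansions of `ρ` and `n2`
  have tR := GTL_tl R K0 hR
  have tN := GTL_tl N2 K0 hN2
  rw [d1.1, d2.1, ← a2] at tR
  rw [d1.2.2, d2.2.2, ← a4] at tN
  have hdgn : ∀ b c : ℝ, |b| ≤ 1 / 25 → |c| ≤ 1 / 25 → nm (dg b c) ≤ 1 / 10 := fun b c hb hc => (GTL_nmdg b c hb hc).trans (by linarith)
  have tR' : TL (2 * K0 + K1) (1 / 25) (fun b c => rho U 0 (g * dg b c)) (rho U 0 g) (-(n2 U g / (2 * rho U 0 g))) (-(n2 U g / (2 * rho U 0 g))) := by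
    have e1 : (n1 U g * 0 - n2 U g * (1 + 0)) / (2 * rho U 0 g) = -(n2 U g / (2 * rho U 0 g)) := by ring
    have e2 : (n1 U g * 0 - n2 U g * (0 + 1)) / (2 * rho U 0 g) = -(n2 U g / (2 * rho U 0 g)) := by ring
    rw [e1, e2] at tR
    exact GTL_cg _ _ _ _ _ _ _ (GTL_mono _ _ _ _ _ _ _ _ tR (by linarith) le_rfl) (by norm_num) fun b c hb hc => (hD _ (hdgn b c hb hc)).2.1
  have tN' : TL (2 * K0 + K1) (1 / 25) (fun b c => n2 U (g * dg b c)) (n2 U g) (-hess U g 1 1 - n1 U g) (-hess U g 1 1 + n1 U g) := by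
    have e1 : hess U g 1 0 * 0 - hess U g 1 1 * (1 + 0) - (1 - 0) * n1 U g = -hess U g 1 1 - n1 U g := by ring
    have e2 : hess U g 1 0 * 0 - hess U g 1 1 * (0 + 1) - (0 - 1) * n1 U g = -hess U g 1 1 + n1 U g := by ring
    rw [e1, e2] at tN
    exact GTL_cg _ _ _ _ _ _ _ (GTL_mono _ _ _ _ _ _ _ _ tN (by linarith) le_rfl) (by norm_num) fun b c hb hc => (hD _ (hdgn b c hb hc)).2.2.2
  have hρ := hLP Γ B U hU g 1
  have hρ0 : 0 < rho U 0 g := lt_of_lt_of_le (by positivity) hρ.1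
  -- the inverse of `ρ`
  have tI : TL A1 r1 (fun b c => (rho U 0 (g * dg b c))⁻¹) (rho U 0 g)⁻¹ (-(-(n2 U g / (2 * rho U 0 g)) / rho U 0 g ^ 2)) (-(-(n2 U g / (2 * rho U 0 g)) / rho U 0 g ^ 2)) := by
    refine (hG1 _ _ _ _ _ _ _ _ tR' tR').2.2.2 ?_
    rw [abs_of_pos hρ0]
    refine le_trans ?_ hρ.1
    exact one_div_le_one_div_of_le (by linarith) (by linarith)
  have tP := (hG2 _ _ _ _ _ _ _ _ (GTL_mono _ (2 * K0 + K1 + A1) _ r1 _ _ _ _ tN' (by linarith) hr1') (GTL_mono _ (2 * K0 + K1 + A1) _ r1 _ _ _ _ tI (by linarith) le_rfl)).2.2.1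
  have tQ := GTL_sc _ _ (-(1 / 4)) _ _ _ _ tP (by rw [abs_neg, abs_of_pos (by norm_num)]; norm_num)
  refine ⟨GTL_mono _ _ _ _ _ _ _ _ tR' (by linarith) hK25, ?_, ?_⟩
  · have e0 : (fun b c => -(kap U 0 (g * dg b c)) / 2) = fun b c => -(1 / 4) * (n2 U (g * dg b c) * (rho U 0 (g * dg b c))⁻¹) := by
      funext b c
      rw [kap, div_eq_mul_inv (n2 U (g * dg b c)) (2 * rho U 0 (g * dg b c)), mul_inv]
      ring
    have e1 : -(kap U 0 g) / 2 = -(1 / 4) * (n2 U g * (rho U 0 g)⁻¹) := by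
      rw [kap, div_eq_mul_inv (n2 U g) (2 * rho U 0 g), mul_inv]
      ring
    have e2 : hess U g 1 1 / (4 * rho U 0 g) - n2 U g ^ 2 / (8 * rho U 0 g ^ 3) + n1 U g / (4 * rho U 0 g) =
        -(1 / 4) * (n2 U g * (-(-(n2 U g / (2 * rho U 0 g)) / rho U 0 g ^ 2)) + (rho U 0 g)⁻¹ * (-hess U g 1 1 - n1 U g)) := by
      field_simp
      ring
    have e3 : hess U g 1 1 / (4 * rho U 0 g) - n2 U g ^ 2 / (8 * rho U 0 g ^ 3) - n1 U g / (4 * rho U 0 g) =
        -(1 / 4) * (n2 U g * (-(-(n2 U g / (2 * rho U 0 g)) / rho U 0 g ^ 2)) + (rho U 0 g)⁻¹ * (-hess U g 1 1 + n1 U g)) := by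
      field_simp
      ring
    rw [e0, e1, e2, e3]
    exact GTL_mono _ _ _ _ _ _ _ _ tQ (by linarith) hKr
  · intro E D hD25
    have hDs : nm D ≤ 1 / 25 := hD25.trans hK25
    obtain ⟨n0, -, -, -, -, nmul, -, -, -⟩ := h1
    have nD := n0 D
    have nE := n0 E
    have hgE := hLP Γ B U hU (g * E) D
    have hgD := hLP Γ B U hU g D
    have hgE' := hLP Γ B U hU g E
    have hgED := hLP Γ B U hU (g * E * D) 1
    have hgDD := hLP Γ B U hU (g * D) 1
    obtain ⟨x1, x2, x3, x4, x5, x6, x7, x8, x9, -, -⟩ := hgE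
    obtain ⟨y1, y2, y3, y4, y5, y6, y7, y8, y9, -, -⟩ := hgD
    obtain ⟨-, -, -, -, -, -, z7, z8, z9, -, -⟩ := hgE'
    have hbig : ∀ f : SL(2, ℝ) → ℝ, |f (g * E * D) - f (g * E)| ≤ K1 * nm D → |f (g * D) - f g| ≤ K1 * nm D → 1 / 25 ≤ nm E →
        |f (g * E * D) - f (g * E) - f (g * D) + f g| ≤ L * nm D * nm E := by
      intro f hf1 hf2 hE
      have t1 : f (g * E * D) - f (g * E) - f (g * D) + f g = (f (g * E * D) - f (g * E)) - (f (g * D) - f g) := by ring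
      rw [t1]
      refine (abs_sub _ _).trans ?_
      have t2 : K1 * nm D * (1 / 25) ≤ K1 * nm D * nm E := mul_le_mul_of_nonneg_left hE (mul_nonneg (by linarith) nD)
      have t3 : 0 ≤ K0 * (nm D * nm E) := mul_nonneg (by linarith) (mul_nonneg nD nE)
      have t4 : L * nm D * nm E = 10 * (K0 * (nm D * nm E)) + 50 * (K1 * nm D * nm E) := by
        rw [hLdef]
        ring
      linarith
    have hsm : nm E ≤ 1 / 25 → ∀ (f : SL(2, ℝ) → ℝ) (G : (Fin 2 → Fin 2 → ℝ) → ℝ), CB (Metric.closedBall one2 (1 / 10)) K0 G →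
        (∀ X : SL(2, ℝ), nm X ≤ 1 / 10 → f (g * X) = G (mt X)) → |f (g * E * D) - f (g * E) - f (g * D) + f g| ≤ L * nm D * nm E := by
      intro hE f G hG hf
      have t1 := (h5 K0 G (by linarith) hG D E hDs hE).2
      have t2 : nm (E * D) ≤ 1 / 10 := by
        refine (nmul E D).trans ?_
        nlinarith
      have t3 : f g = G one2 := by
        have := hf 1 hn1
        rwa [mul_one, GLP_mt1] at this
      rw [← hf _ t2, ← hf E (by linarith), ← hf D (by linarith), ← t3, ← mul_assoc] at t1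
      refine t1.trans ?_
      have t4 : 0 ≤ K1 * (nm D * nm E) := mul_nonneg (by linarith) (mul_nonneg nD nE)
      have t5 : L * nm D * nm E = 10 * K0 * nm D * nm E + 50 * (K1 * (nm D * nm E)) := by
        rw [hLdef]
        ring
      linarith
    have sρ : |rho U 0 (g * E * D) - rho U 0 (g * E) - rho U 0 (g * D) + rho U 0 g| ≤ L * nm D * nm E := by
      rcases le_total (nm E) (1 / 25) with hE | hE
      · exact hsm hE (rho U 0) R hR fun X hX => (hD X hX).2.1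
      · exact hbig (rho U 0) x7 y7 hE
    have sn : |n2 U (g * E * D) - n2 U (g * E) - n2 U (g * D) + n2 U g| ≤ L * nm D * nm E := by
      rcases le_total (nm E) (1 / 25) with hE | hE
      · exact hsm hE (n2 U) N2 hN2 fun X hX => (hD X hX).2.2.2
      · exact hbig (n2 U) x9 y9 hE
    have hde : 0 ≤ nm D * nm E := mul_nonneg nD nE
    have hKL : K1 ≤ L := by linarith
    constructor
    · refine sρ.trans ?_
      have t1 : L * (nm D * nm E) ≤ K * (nm D * nm E) := mul_le_mul_of_nonneg_right (by linarith) hde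
      linarith
    · have hinvL : 1 / L ≤ 1 / K1 := one_div_le_one_div_of_le (by linarith) hKL
      have hq := GTL_quo L (nm D) (nm E) (n2 U g) (n2 U (g * E)) (n2 U (g * D)) (n2 U (g * E * D)) (rho U 0 g) (rho U 0 (g * E)) (rho U 0 (g * D)) (rho U 0 (g * E * D))
        hL1 nD (by linarith) nE (hinvL.trans hρ.1) (hinvL.trans x1) (hinvL.trans hgDD.1) (hinvL.trans hgED.1) (hρ.2.2.2.1.trans hKL) (x4.trans hKL)
        (y9.trans (mul_le_mul_of_nonneg_right hKL nD)) (z9.trans (mul_le_mul_of_nonneg_right hKL nE))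
        (y7.trans (mul_le_mul_of_nonneg_right hKL nD)) (z7.trans (mul_le_mul_of_nonneg_right hKL nE)) sn sρ
      have ek : ∀ x : SL(2, ℝ), -(kap U 0 x) / 2 = -(1 / 4) * (n2 U x / rho U 0 x) := by
        intro x
        rw [kap, div_eq_mul_inv (n2 U x) (2 * rho U 0 x), mul_inv]
        ring
      rw [ek, ek, ek, ek]
      have t1 : -(1 / 4) * (n2 U (g * E * D) / rho U 0 (g * E * D)) - -(1 / 4) * (n2 U (g * E) / rho U 0 (g * E)) - -(1 / 4) * (n2 U (g * D) / rho U 0 (g * D)) +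
          -(1 / 4) * (n2 U g / rho U 0 g) = -(1 / 4) * (n2 U (g * E * D) / rho U 0 (g * E * D) - n2 U (g * E) / rho U 0 (g * E) - n2 U (g * D) / rho U 0 (g * D) +
            n2 U g / rho U 0 g) := by ring
      rw [t1, abs_mul, abs_neg, abs_of_pos (by norm_num : (0 : ℝ) < 1 / 4)]
      have t2 : 8 * L ^ 6 * (nm D * nm E) ≤ K * (nm D * nm E) := mul_le_mul_of_nonneg_right (by linarith) hde
      have t3 : 0 ≤ 8 * L ^ 6 * (nm D * nm E) := mul_nonneg hL6 hde
      have t4 : 8 * L ^ 6 * nm D * nm E = 8 * L ^ 6 * (nm D * nm E) := by ring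
      rw [t4] at hq
      linarith

end Pool.Agent.VNE
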