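import Pool.Agent.helper62.VN.SpecE

set_option autoImplicit false

open scoped MatrixGroups ContDiff Topology UpperHalfPlane
open UpperHalfPlane MeasureTheory Filter Set

namespace Pool.Agent.VNE

open Pool.Agent.RS Pool.Agent.VQE

theorem NLT_proof (h1 : NLA_stmt) (h2 : NGC_stmt) (h3 : NDC_stmt) : NLT_stmt := by
  intro K hK
  obtain ⟨CA, μ, εA, hCA, hμ, hεA, hA⟩ := h1 K hK
  obtain ⟨εG, hεG, hG⟩ := h2 K hK
  have hK2 : 1 ≤ K ^ 2 := one_le_pow₀ hK
  obtain ⟨CD, μD, hCD, -, hD⟩ := h3 (K ^ 2) hK2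
  set ε : ℝ := min εA εG with hε
  have hε0 : 0 < ε := lt_min hεA hεG
  have hexp : 0 < CD * Real.exp CD := by positivity
  set C : ℝ := CA + 2 * CA / ε + 4 * (CD * Real.exp CD) / ε with hC
  have hC1 : 1 ≤ C := by
    have : 0 ≤ 2 * CA / ε + 4 * (CD * Real.exp CD) / ε := by positivity
    linarith
  refine ⟨C, εA, hC1, hεA, ?_⟩
  intro X g J0 W0 J1 W1 J2 W2 hX hv hS1 hS2 hJ
  obtain ⟨Φ, hΦ0, -, hΦc, hΦL, hΦd⟩ := hG ε X g hε0 (min_le_right _ _) hX
  set Jh : ℝ → ℝ := fun t => (Φ t (J0, W0)).1 with hJh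
  set Wh : ℝ → ℝ := fun t => (Φ t (J0, W0)).2 with hWh
  have hJ0 : Jh 0 = J0 := by
    show (Φ 0 (J0, W0)).1 = J0
    rw [hΦ0]
  have hW0 : Wh 0 = W0 := by
    show (Φ 0 (J0, W0)).2 = W0
    rw [hΦ0]
  set v : ℝ → ℝ := fun t => |Jh t| + |Wh t| with hvd
  have hvc : Continuous v := by
    have hc := hΦc (J0, W0)
    exact (continuous_fst.comp hc).abs.add (continuous_snd.comp hc).abs
  have hv0 : v 0 = |J0| + |W0| := by
    show |Jh 0| + |Wh 0| = _
    rw [hJ0, hW0]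
  have hh0 : 0 ≤ |J0| + |W0| := by positivity
  -- pairs
  have hPR : ∀ T : ℝ, (∀ t ∈ Icc (0 : ℝ) T, v t ≤ ε / 2) → PR εA X g T Jh Wh := by
    intro T hT
    have hb : ∀ t ∈ Icc (0 : ℝ) T, |Jh t| ≤ ε / 2 ∧ |Wh t| ≤ ε / 2 := by
      intro t ht
      have h5 : |Jh t| + |Wh t| ≤ ε / 2 := hT t ht
      have h6 := abs_nonneg (Jh t)
      have h7 := abs_nonneg (Wh t)
      exact ⟨by linarith, by linarith⟩
    refine ⟨fun t ht => (hΦd (J0, W0) t (hb t ht).1 (hb t ht).2).1, fun t ht => (hΦd (J0, W0) t (hb t ht).1 (hb t ht).2).2, fun t ht => ?_⟩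
    have h5 : |Jh t| + |Wh t| ≤ ε / 2 := hT t ht
    have h6 : ε ≤ εA := min_le_left _ _
    linarith
  have hS2' : SMN εA X (g * pj X g (Jh 0) (Wh 0)) J2 W2 := by
    rw [hJ0, hW0]
    exact hS2
  by_cases hcase : ∀ t : ℝ, 0 ≤ t → v t ≤ ε / 2
  · -- the whole half line
    have h5 : ∀ T : ℝ, 1 ≤ T → |W1 0 - W2 0| ≤ CA * |J1 0| * (|J0| + |W0| + Real.exp (-(μ * T))) := by
      intro T hT
      have h6 := (hA X g T Jh Wh J1 W1 J2 W2 hX hT (hPR T (fun t ht => hcase t ht.1)) hS1 hS2' hJ).1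
      rwa [hJ0, hW0] at h6
    have h6 : Tendsto (fun T : ℝ => CA * |J1 0| * (|J0| + |W0| + Real.exp (-(μ * T)))) atTop (𝓝 (CA * |J1 0| * (|J0| + |W0| + 0))) := by
      refine Tendsto.const_mul _ (Tendsto.const_add _ ?_)
      refine Real.tendsto_exp_neg_atTop_nhds_zero.comp ?_
      exact tendsto_id.const_mul_atTop hμ
    have h7 : |W1 0 - W2 0| ≤ CA * |J1 0| * (|J0| + |W0| + 0) := ge_of_tendsto h6 (by
      filter_upwards [eventually_ge_atTop (1 : ℝ)] with T hT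
      exact h5 T hT)
    rw [add_zero] at h7
    refine h7.trans ?_
    have h8 : CA ≤ C := by
      have : 0 ≤ 2 * CA / ε + 4 * (CD * Real.exp CD) / ε := by positivity
      linarith
    exact mul_le_mul_of_nonneg_right (mul_le_mul_of_nonneg_right h8 (abs_nonneg _)) hh0
  · push Not at hcase
    obtain ⟨t1, ht1, hvt1⟩ := hcase
    have hcomp : IsCompact (Icc (0 : ℝ) t1 ∩ {t | ε / 2 ≤ v t}) := isCompact_Icc.inter_right (isClosed_le continuous_const hvc)
    obtain ⟨T, hT⟩ := hcomp.exists_isLeast ⟨t1, ⟨ht1, le_rfl⟩, hvt1.le⟩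
    obtain ⟨⟨hTI, hTv⟩, hTmin⟩ := hT
    have hlt : ∀ t ∈ Ico (0 : ℝ) T, v t < ε / 2 := by
      intro t ht
      by_contra hno
      push Not at hno
      have := hTmin ⟨⟨ht.1, ht.2.le.trans hTI.2⟩, hno⟩
      exact absurd ht.2 (not_lt.2 this)
    -- T is at least one
    have hsmall : ∀ t ∈ Icc (0 : ℝ) 1, v t < ε / 2 := by
      intro t ht
      have h5 := (hD _ _ _ _ _ 0 1 zero_le_one (hΦL (J0, W0) 1)).2.1 0 ⟨le_rfl, zero_le_one⟩ t ht
      have h6 : v t ≤ CD * Real.exp (CD * |t - 0|) * v 0 := h5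
      rw [sub_zero, abs_of_nonneg ht.1, hv0] at h6
      have h7 : Real.exp (CD * t) ≤ Real.exp CD := Real.exp_le_exp.2 (by nlinarith [ht.2])
      have h8 : CD * Real.exp (CD * t) * (|J0| + |W0|) ≤ CD * Real.exp CD * (1 / C) :=
        mul_le_mul (mul_le_mul_of_nonneg_left h7 (by linarith)) hv hh0 hexp.le
      have h9 : CD * Real.exp CD * (1 / C) ≤ ε / 4 := by
        have hCpos : 0 < C := by linarith
        rw [mul_one_div, div_le_iff₀ hCpos]
        have h10 : 4 * (CD * Real.exp CD) / ε ≤ C := by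
          have : 0 ≤ CA + 2 * CA / ε := by positivity
          linarith
        have h11 : 4 * (CD * Real.exp CD) ≤ C * ε := (div_le_iff₀ hε0).1 h10
        linarith
      linarith
    have hT1 : 1 ≤ T := by
      by_contra hno
      push Not at hno
      have h5 := hsmall T ⟨hTI.1, hno.le⟩
      have h6 : ε / 2 ≤ v T := hTv
      linarith
    have hle : ∀ t ∈ Icc (0 : ℝ) T, v t ≤ ε / 2 := by
      have h5 : closure (Ico (0 : ℝ) T) ⊆ {t | v t ≤ ε / 2} :=
        closure_minimal (fun t ht => (hlt t ht).le) (isClosed_le hvc continuous_const)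
      rw [closure_Ico (by linarith : (0 : ℝ) ≠ T)] at h5
      exact fun t ht => h5 ht
    have h6 := (hA X g T Jh Wh J1 W1 J2 W2 hX hT1 (hPR T hle) hS1 hS2' hJ).2
    rw [hJ0, hW0] at h6
    have h7 : ε / 2 ≤ |Jh T| + |Wh T| := hTv
    have h8 : |W1 0 - W2 0| * (ε / 2) ≤ CA * |J1 0| * (|J0| + |W0|) := (mul_le_mul_of_nonneg_left h7 (abs_nonneg _)).trans h6
    have h9 : |W1 0 - W2 0| ≤ (2 * CA / ε) * |J1 0| * (|J0| + |W0|) := by
      have e : (2 * CA / ε) * |J1 0| * (|J0| + |W0|) = (CA * |J1 0| * (|J0| + |W0|)) / (ε / 2) := by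
        field_simp
      rw [e, le_div_iff₀ (by positivity)]
      exact h8
    refine h9.trans ?_
    have h10 : 2 * CA / ε ≤ C := by
      have : 0 ≤ CA + 4 * (CD * Real.exp CD) / ε := by positivity
      linarith
    exact mul_le_mul_of_nonneg_right (mul_le_mul_of_nonneg_right h10 (abs_nonneg _)) hh0

end Pool.Agent.VNE
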